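import Mathlib
import Pool.Agent.Q220.Grp.Thr

/-!
# The percolation threshold of every infinite countable group is one
-/

set_option autoImplicit false

open Pool.Agent.Q220.Grp.Thr
open scoped ENNReal NNReal

namespace Pool.Agent.Results.MP_da416c_pr.ThresholdIsOne

/-- For every infinite countable group `Γ`, the infimum over all generating measures `μ` on `Γ` of
the critical parameters `λ_c(μ)` equals `1`. -/
theorem result : ∀ (Γ : Type*) [Group Γ] [Countable Γ] [Infinite Γ],
    ⨅ μ : GeneratingMeasure Γ, criticalParameter μ = 1 := by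
  intro Γ _ _ _
  refine le_antisymm ?_ (le_iInf fun μ => one_le_critical μ)
  refine le_of_forall_gt fun a ha => ?_
  obtain ⟨b, hb1, hba⟩ := exists_between ha
  have hbt : b ≠ ⊤ := ne_top_of_lt hba
  lift b to ℝ≥0 using hbt
  obtain ⟨μ, hμ⟩ := exists_measure (Γ := Γ) b (by exact_mod_cast hb1)
  exact lt_of_le_of_lt ((iInf_le _ μ).trans hμ) hba

end Pool.Agent.Results.MP_da416c_pr.ThresholdIsOne
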